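import Pool.Agent.H22.Sub.Main

/-!
# Generalised abundance for complete intersections, of any dimension and with arbitrary
# singularities, in projective varieties with large fibres

`W` is a closed subset of a finite product of complex projective spaces, the set of common zeros
of the `H l`; `X ⊆ W` is cut out by the `F j`, of multidegrees `d j`.  (If the canonical class of
`W` is `O(-r)` and `X` is the complete intersection in `W` of the hypersurfaces `F j = 0`, then
the canonical class of `X` is `O(κ)` with `κ i = ∑ j, d j i - r i`.)  For each factor `i` with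
`0 < r i` we assume that either the `H l` do not involve the `i`-th projective space (`W` is a
product with it), and its dimension is at least `r i - 1`, or at every point `x` of `X` all
components through `x` of the fibre of the projection of `W` to the other factors have dimension
at least `r i`.
-/

set_option autoImplicit false

namespace Pool.Agent.Results.MP_1149f4_ag.FibredAmbient

open MvPolynomial Pool.Agent.H22.Sub

/-- If `L = O(a)` is nef on `X` and `m L - K_X = O(m a - κ)` is the restriction of a nef line
bundle of the product of projective spaces for some `m ≥ 1`, then `L` is semiample on `X`. -/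
theorem result {S I Λ J : Type} [Fintype S] [Fintype I] [Fintype J] (π : S → I)
    (H : Λ → MvPolynomial S ℂ) (η : Λ → I → ℕ)
    (hH : ∀ l, MultiHom π (H l) (fun i => (η l i : ℤ)))
    (F : J → MvPolynomial S ℂ) (d : J → I → ℕ)
    (hF : ∀ j, MultiHom π (F j) (fun i => (d j i : ℤ)))
    (r : I → ℤ)
    (hr : ∀ i, 0 < r i → ((∀ l, η l i = 0) ∧ r i ≤ Nat.card {s // π s = i}) ∨
      ∀ x ∈ Locus π (Sum.elim H F),
        ∀ p ∈ (Ideal.span (Set.range fun l => onFactor π i x (H l))).minimalPrimes,
          (∀ g ∈ p, eval (fun s : {s // π s = i} => x s.1) g = 0) →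
          (((r i).toNat + 1 : ℕ) : WithBot ℕ∞) ≤
            ringKrullDim (MvPolynomial {s // π s = i} ℂ ⧸ p))
    (a : I → ℤ) (m : ℕ) (hm : 1 ≤ m)
    (ha : ∀ i, 0 ≤ m * a i - (∑ j, (d j i : ℤ) - r i))
    (hnef : IsNef π (Locus π (Sum.elim H F)) a) :
    IsSemiample π (Locus π (Sum.elim H F)) a := by
  have h1 : IsNef π (Locus π (Sum.elim H F)) (m • a) := by
    rintro C hC ⟨k, hk, t, ht, h2, h3⟩
    refine hnef C hC ⟨k * m, Nat.mul_pos hk hm, t, ?_, h2, h3⟩
    rwa [smul_smul] at ht
  have h2 := semiample_of_nef π H η hH F d hF r hr (m • a)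
    (fun i => by
      have h3 := ha i
      rw [Pi.smul_apply, nsmul_eq_mul]
      linarith) h1
  intro x hx
  obtain ⟨k, hk, t, ht, h3⟩ := h2 x hx
  refine ⟨k * m, Nat.mul_pos hk hm, t, ?_, h3⟩
  rwa [smul_smul] at ht

end Pool.Agent.Results.MP_1149f4_ag.FibredAmbient
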