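import Pool.Agent.H88.Abund.Main

/-!
# Generalised abundance for complete intersections in (abelian variety) × (product of projective
spaces)

Let `A = ℂ^g / Λ` be a complex torus and let `X ⊆ A × P^{n 1} × … × P^{n r}` be defined by the
vanishing of nonzero sections `F j` of line bundles `L j ⊠ O(d j)`; let `L` be the restriction of a
line bundle `M ⊠ O(l)`. If `L` is nonnegative on every rational curve in `X` and `m L - K` is
numerically effective on `A` and on the projective spaces, `K = ∑ (L j, d j) - (0, n + 1)` being the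
canonical class of `X` if `X` is a complete intersection, then `L` is numerically semiample.
-/

set_option autoImplicit false

namespace Pool.Agent.Results.MP_1149f4_ag.TorusProducts

open Pool.Agent.H88.Abund

/-- The line bundle on the torus with factor of automorphy `e` is numerically effective: a positive
power of it, twisted by a flat bundle, has a nonzero section. -/
def NumEffective {g : ℕ} (Λ : Submodule ℤ (Fin g → ℂ)) (e : Λ → (Fin g → ℂ) → ℂ) : Prop :=
  ∃ q : ℕ, 1 ≤ q ∧ ∃ (χ : Λ →+ ℂ) (θ : (Fin g → ℂ) → ℂ), Differentiable ℂ θ ∧ (∃ z, θ z ≠ 0) ∧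
    ∀ (v : Λ) (z : Fin g → ℂ), θ (z + v) = e v z ^ q * Complex.exp (χ v) * θ z

/-- The line bundle with factor of automorphy `e` and multidegree `l` is numerically semiample over
`X`, whose points have the coordinates `S`: a positive power of it, twisted by a flat bundle of the
torus, is generated by its sections. -/
def NumSemiample {g r : ℕ} {n : Fin r → ℕ} (S : Set (VS g × Xs n)) (Λ : Submodule ℤ (Fin g → ℂ))
    (e : Λ → (Fin g → ℂ) → ℂ) (l : Fin r → ℤ) : Prop :=
  ∃ N : ℕ, 1 ≤ N ∧ ∃ χ : Λ →+ ℂ, ∀ p ∈ S, ∃ s,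
    IsSection S Λ (fun v z => e v z ^ N * Complex.exp (χ v)) (fun i => N * l i) s ∧ s p ≠ 0

theorem result {g r c : ℕ} (n : Fin r → ℕ) (Λ : Submodule ℤ (Fin g → ℂ)) [DiscreteTopology Λ]
    [IsZLattice ℝ Λ] (φ : Fin c → Factor Λ) (d : Fin c → Fin r → ℕ)
    (F : Fin c → (Fin g → ℂ) → MvPolynomial (Co n) ℂ)
    (hF : ∀ j, IsEquation (φ j) (d j) (F j)) (hne : ∀ j, ∃ z, F j z ≠ 0)
    (φL : Factor Λ) (l : Fin r → ℤ)
    (hL : ∀ z δ f, IsRatCurve F z δ f → 0 ≤ ∑ i, l i * (δ i : ℤ))
    (m : ℕ) (hm : 1 ≤ m) (hP : ∀ i, canDeg n d i ≤ m * l i)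
    (hA : NumEffective Λ fun v z => φL.e v z ^ m / ∏ j, (φ j).e v z) :
    NumSemiample (Coord F) Λ φL.e l := by
  obtain ⟨q, hq, χ, θ, hθ, hθ0, hθq⟩ := hA
  set ψ : Factor Λ := ⟨fun v => ((m * q : ℕ) : ℂ) • φL.lin v - (q : ℂ) • ∑ j, (φ j).lin v,
    fun v => ((m * q : ℕ) : ℂ) * φL.cst v - (q : ℂ) * (∑ j, (φ j).cst v) + χ v⟩ with hψ
  have hψe : ∀ (v : Λ) (z : Fin g → ℂ), ψ.e v z * (∏ j, (φ j).e v z) ^ q =
      φL.e v z ^ (m * q) * Complex.exp (χ v) := by
    intro v z
    unfold Factor.e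
    rw [← Complex.exp_sum, ← Complex.exp_nat_mul, ← Complex.exp_nat_mul, ← Complex.exp_add,
      ← Complex.exp_add]
    congr 1
    simp only [hψ, LinearMap.sub_apply, LinearMap.smul_apply, LinearMap.sum_apply, smul_eq_mul,
      Finset.sum_add_distrib]
    ring
  have hne' : ∀ (v : Λ) (z : Fin g → ℂ), (∏ j, (φ j).e v z) ≠ 0 := fun v z =>
    Finset.prod_ne_zero_iff.2 fun j _ => Complex.exp_ne_zero _
  have hθ' : IsTheta ψ θ := by
    refine ⟨hθ, fun v z => ?_⟩
    apply mul_left_cancel₀ (pow_ne_zero q (hne' v z))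
    have h1 : (∏ j, (φ j).e v z) ^ q * (ψ.e v z * θ z) =
        (ψ.e v z * (∏ j, (φ j).e v z) ^ q) * θ z := by ring
    rw [hθq v z, h1, hψe v z, div_pow, pow_mul]
    have := pow_ne_zero q (hne' v z)
    field_simp
  refine ⟨2 * q * m, ?_, 2 • χ, ?_⟩
  · exact Nat.one_le_iff_ne_zero.2 (by positivity)
  · intro p hp
    obtain ⟨s, hs, hsp⟩ := main φ d F hF hne ψ θ hθ' hθ0 q (fun i => m * l i - canDeg n d i)
      (fun i => sub_nonneg.2 (hP i))
      (fun z δ f hc => by
        have h1 := hL z δ f hc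
        have h2 : ∑ i, (canDeg n d i + (m * l i - canDeg n d i)) * (δ i : ℤ) =
            m * ∑ i, l i * (δ i : ℤ) := by
          rw [Finset.mul_sum]
          refine Finset.sum_congr rfl fun i _ => ?_
          ring
        rw [h2]
        positivity) p hp
    refine ⟨s, ⟨hs.holo, ?_, ?_⟩, hsp⟩
    · intro v w hw
      rw [hs.lat v w hw, Finset.prod_pow, hψe, mul_pow, ← pow_mul, ← Complex.exp_nat_mul]
      congr 2
      · congr 1
        ring
      · congr 1
        rw [AddMonoidHom.smul_apply, nsmul_eq_mul]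
    · intro t ht w hw
      rw [hs.scal t ht w hw]
      congr 1
      refine Finset.prod_congr rfl fun i _ => ?_
      congr 1
      push_cast
      ring

end Pool.Agent.Results.MP_1149f4_ag.TorusProducts
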